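import Mathlib

set_option autoImplicit false

/-!
# One-troughed travelling waves of the piecewise linear beam equation are even

Travelling waves of `u_ττ + u_xxxx + a u⁺ - b u⁻ = 1` in the normalised form
`z'''' + c² z'' + (z + 1)⁺ - ξ (z + 1)⁻ - 1 = 0`, `z, z' → 0` at infinity.
-/

open Filter Topology Set

namespace Pool.Agent.Results.MP_55ecfc_an.OneTroughedEven

/-- `z` is a travelling wave profile: a `C⁴` solution of
`z'''' + c² z'' + (z + 1)⁺ - ξ (z + 1)⁻ - 1 = 0` with `z, z' → 0` as `|t| → ∞`. -/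
structure IsWave (c ξ : ℝ) (z : ℝ → ℝ) : Prop where
  smooth : ContDiff ℝ 4 z
  eqn : ∀ t, iteratedDeriv 4 z t + c ^ 2 * iteratedDeriv 2 z t + max (z t + 1) 0
    - ξ * max (-(z t + 1)) 0 - 1 = 0
  lim : Tendsto z (cocompact ℝ) (𝓝 0)
  limd : Tendsto (deriv z) (cocompact ℝ) (𝓝 0)

/-- `z` drops below `-1` on exactly one interval. -/
def OneTroughed (z : ℝ → ℝ) : Prop := ∃ p q : ℝ, p < q ∧ {t | z t < -1} = Ioo p q

/-- `f0` with its derivatives `f1, …, f4`. -/
structure Jet (f0 f1 f2 f3 f4 : ℝ → ℝ) : Prop where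
  h0 : ∀ t, HasDerivAt f0 (f1 t) t
  h1 : ∀ t, HasDerivAt f1 (f2 t) t
  h2 : ∀ t, HasDerivAt f2 (f3 t) t
  h3 : ∀ t, HasDerivAt f3 (f4 t) t

lemma const_of {F : ℝ → ℝ} {F' : ℝ → ℝ} {L : ℝ} (hF : ∀ t, HasDerivAt F (F' t) t)
    (h : ∀ t, L ≤ t → F' t = 0) (t : ℝ) (ht : L ≤ t) : F t = F L := by
  refine constant_of_has_deriv_right_zero (a := L) (b := t)
    (fun s _ => (hF s).continuousAt.continuousWithinAt) (fun s hs => ?_) t ⟨ht, le_rfl⟩
  have := (hF s).hasDerivWithinAt (s := Ici s)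
  rwa [h s hs.1] at this

lemma const_of' {F : ℝ → ℝ} {F' : ℝ → ℝ} {a b : ℝ} (hF : ∀ t, HasDerivAt F (F' t) t)
    (h : ∀ t, a ≤ t → t ≤ b → F' t = 0) (hab : a ≤ b) : F b = F a := by
  refine constant_of_has_deriv_right_zero (a := a) (b := b)
    (fun s _ => (hF s).continuousAt.continuousWithinAt) (fun s hs => ?_) b ⟨hab, le_rfl⟩
  have := (hF s).hasDerivWithinAt (s := Ici s)
  rwa [h s hs.1 hs.2.le] at this

section decay

variable {f0 f1 f2 f3 f4 : ℝ → ℝ} {c α L : ℝ}

/-- the decaying solutions satisfy an equation of order two -/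
theorem decay (J : Jet f0 f1 f2 f3 f4) (hα : 0 < α) (hα1 : α < 1) (hc : 4 * α ^ 2 = 2 - c ^ 2)
    (hode : ∀ t, L ≤ t → f4 t = -(c ^ 2) * f2 t - f0 t)
    (l0 : Tendsto f0 atTop (𝓝 0)) (l1 : Tendsto f1 atTop (𝓝 0)) (t : ℝ) (ht : L ≤ t) :
    f2 t + 2 * α * f1 t + f0 t = 0 ∧ f3 t + 2 * α * f2 t + f1 t = 0 := by
  set h : ℝ → ℝ := fun t => f2 t - 2 * α * f1 t + f0 t with hh
  set h' : ℝ → ℝ := fun t => f3 t - 2 * α * f2 t + f1 t with hh'
  set h'' : ℝ → ℝ := fun t => f4 t - 2 * α * f3 t + f2 t with hh''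
  have dh : ∀ t, HasDerivAt h (h' t) t := fun t =>
    (((J.h2 t).sub ((J.h1 t).const_mul (2 * α))).add (J.h0 t))
  have dh' : ∀ t, HasDerivAt h' (h'' t) t := fun t =>
    (((J.h3 t).sub ((J.h2 t).const_mul (2 * α))).add (J.h1 t))
  have eh : ∀ t, L ≤ t → h'' t = -(2 * α) * h' t - h t := by
    intro t ht
    simp only [hh, hh', hh'', hode t ht]
    linear_combination (-(f2 t)) * hc
  set Q : ℝ → ℝ := fun t => h' t ^ 2 + 2 * α * (h t * h' t) + h t ^ 2 with hQ
  have dexp : ∀ b t : ℝ, HasDerivAt (fun t => Real.exp (b * t)) (Real.exp (b * t) * b) t := by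
    intro b t
    have := ((hasDerivAt_id t).const_mul b).exp
    simpa using this
  have hQc : ∀ t, L ≤ t → Q t * Real.exp (2 * α * t) = Q L * Real.exp (2 * α * L) := by
    intro t ht
    refine const_of (F := fun t => Q t * Real.exp (2 * α * t))
      (F' := fun t => (2 * h' t * h'' t + 2 * α * (h' t * h' t + h t * h'' t) + 2 * h t * h' t) *
        Real.exp (2 * α * t) + Q t * (Real.exp (2 * α * t) * (2 * α))) (fun t => ?_) (fun t ht => ?_) t ht
    · refine HasDerivAt.mul ?_ (dexp (2 * α) t)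
      have e1 := ((dh' t).pow 2)
      have e2 := (((dh t).mul (dh' t)).const_mul (2 * α))
      have e3 := ((dh t).pow 2)
      refine ((e1.add e2).add e3).congr_deriv ?_
      push_cast
      ring
    · simp only [eh t ht, hQ]
      ring
  have hQ0 : Tendsto Q atTop (𝓝 0) := by
    have e : ∀ᶠ t in atTop, Q L * Real.exp (2 * α * L) * Real.exp (-(2 * α * t)) = Q t := by
      filter_upwards [eventually_ge_atTop L] with t ht
      rw [← hQc t ht, mul_assoc, ← Real.exp_add]
      simp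
    refine Tendsto.congr' e ?_
    have e2 : Tendsto (fun t : ℝ => Real.exp (-(2 * α * t))) atTop (𝓝 0) :=
      Real.tendsto_exp_neg_atTop_nhds_zero.comp (tendsto_id.const_mul_atTop (by positivity))
    simpa using e2.const_mul (Q L * Real.exp (2 * α * L))
  have hQpos : ∀ t, (1 - α) * (h t ^ 2 + h' t ^ 2) ≤ Q t := by
    intro t
    simp only [hQ]
    nlinarith [sq_nonneg (h t + h' t), mul_nonneg hα.le (sq_nonneg (h t + h' t))]
  have sq0 : ∀ g : ℝ → ℝ, (∀ t, (1 - α) * g t ^ 2 ≤ Q t) → Tendsto g atTop (𝓝 0) := by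
    intro g hg
    have h1 : Tendsto (fun t => g t ^ 2) atTop (𝓝 0) := by
      refine squeeze_zero (g := fun t => (1 - α)⁻¹ * Q t) (fun t => sq_nonneg _) (fun t => ?_) ?_
      · have := hg t
        rw [inv_mul_eq_div, le_div_iff₀ (by linarith)]
        linarith
      · simpa using hQ0.const_mul (1 - α)⁻¹
    have h2 := h1.sqrt
    simp only [Real.sqrt_zero, Real.sqrt_sq_eq_abs] at h2
    exact (tendsto_zero_iff_abs_tendsto_zero _).2 h2
  have lh : Tendsto h atTop (𝓝 0) := sq0 h fun t => by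
    nlinarith [hQpos t, sq_nonneg (h' t), mul_nonneg (by linarith : (0:ℝ) ≤ 1 - α) (sq_nonneg (h' t))]
  have lh' : Tendsto h' atTop (𝓝 0) := sq0 h' fun t => by
    nlinarith [hQpos t, sq_nonneg (h t), mul_nonneg (by linarith : (0:ℝ) ≤ 1 - α) (sq_nonneg (h t))]
  set g : ℝ → ℝ := fun t => f2 t + 2 * α * f1 t + f0 t with hg
  set g' : ℝ → ℝ := fun t => f3 t + 2 * α * f2 t + f1 t with hg'
  set g'' : ℝ → ℝ := fun t => f4 t + 2 * α * f3 t + f2 t with hg''
  have dg : ∀ t, HasDerivAt g (g' t) t := fun t =>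
    (((J.h2 t).add ((J.h1 t).const_mul (2 * α))).add (J.h0 t))
  have dg' : ∀ t, HasDerivAt g' (g'' t) t := fun t =>
    (((J.h3 t).add ((J.h2 t).const_mul (2 * α))).add (J.h1 t))
  have eg : ∀ t, L ≤ t → g'' t = 2 * α * g' t - g t := by
    intro t ht
    simp only [hg, hg', hg'', hode t ht]
    linear_combination (-(f2 t)) * hc
  have lf2 : Tendsto f2 atTop (𝓝 0) := by
    have e : f2 = fun t => h t + 2 * α * f1 t - f0 t := by
      funext t
      simp only [hh]
      ring
    rw [e]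
    simpa using (lh.add (l1.const_mul (2 * α))).sub l0
  have lg : Tendsto g atTop (𝓝 0) := by
    have e : g = fun t => h t + 4 * α * f1 t := by
      funext t
      simp only [hh, hg]
      ring
    rw [e]
    simpa using lh.add (l1.const_mul (4 * α))
  have lg' : Tendsto g' atTop (𝓝 0) := by
    have e : g' = fun t => h' t + 4 * α * f2 t := by
      funext t
      simp only [hh', hg']
      ring
    rw [e]
    simpa using lh'.add (lf2.const_mul (4 * α))
  set R : ℝ → ℝ := fun t => g' t ^ 2 - 2 * α * (g t * g' t) + g t ^ 2 with hR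
  have hRc : ∀ t, L ≤ t → R t * Real.exp (-(2 * α) * t) = R L * Real.exp (-(2 * α) * L) := by
    intro t ht
    refine const_of (F := fun t => R t * Real.exp (-(2 * α) * t))
      (F' := fun t => (2 * g' t * g'' t - 2 * α * (g' t * g' t + g t * g'' t) + 2 * g t * g' t) *
        Real.exp (-(2 * α) * t) + R t * (Real.exp (-(2 * α) * t) * (-(2 * α)))) (fun t => ?_)
        (fun t ht => ?_) t ht
    · refine HasDerivAt.mul ?_ (dexp (-(2 * α)) t)
      have e1 := ((dg' t).pow 2)
      have e2 := (((dg t).mul (dg' t)).const_mul (2 * α))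
      have e3 := ((dg t).pow 2)
      refine ((e1.sub e2).add e3).congr_deriv ?_
      push_cast
      ring
    · simp only [eg t ht, hR]
      ring
  have hRt : Tendsto R atTop (𝓝 0) := by
    have := ((lg'.pow 2).sub ((lg.mul lg').const_mul (2 * α))).add (lg.pow 2)
    simpa using this
  have hRL : R L = 0 := by
    have e : Tendsto (fun t => R t * Real.exp (-(2 * α) * t)) atTop (𝓝 (0 * 0)) := by
      refine hRt.mul ?_
      have e2 : Tendsto (fun t : ℝ => Real.exp (-(2 * α * t))) atTop (𝓝 0) :=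
        Real.tendsto_exp_neg_atTop_nhds_zero.comp (tendsto_id.const_mul_atTop (by positivity))
      refine e2.congr fun t => ?_
      congr 1
      ring
    have e3 : Tendsto (fun _ : ℝ => R L * Real.exp (-(2 * α) * L)) atTop (𝓝 (0 * 0)) := by
      refine e.congr' ?_
      filter_upwards [eventually_ge_atTop L] with t ht
      exact hRc t ht
    have e4 := tendsto_nhds_unique tendsto_const_nhds e3
    rw [mul_zero] at e4
    rcases mul_eq_zero.1 e4 with h | h
    · exact h
    · exact absurd h (Real.exp_pos _).ne'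
  have hRt0 : R t = 0 := by
    have := hRc t ht
    rw [hRL, zero_mul] at this
    rcases mul_eq_zero.1 this with h | h
    · exact h
    · exact absurd h (Real.exp_pos _).ne'
  have hpos : (1 - α) * (g t ^ 2 + g' t ^ 2) ≤ 0 := by
    have : (1 - α) * (g t ^ 2 + g' t ^ 2) ≤ R t := by
      simp only [hR]
      nlinarith [sq_nonneg (g t - g' t), mul_nonneg hα.le (sq_nonneg (g t - g' t))]
    linarith
  have hsum : g t ^ 2 + g' t ^ 2 ≤ 0 := by
    by_contra hcon
    push Not at hcon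
    have : 0 < (1 - α) * (g t ^ 2 + g' t ^ 2) := mul_pos (by linarith) hcon
    linarith
  constructor
  · have : g t ^ 2 = 0 := le_antisymm (by nlinarith [sq_nonneg (g' t)]) (sq_nonneg _)
    exact pow_eq_zero_iff (two_ne_zero) |>.1 this
  · have : g' t ^ 2 = 0 := le_antisymm (by nlinarith [sq_nonneg (g t)]) (sq_nonneg _)
    exact pow_eq_zero_iff (two_ne_zero) |>.1 this

end decay

/-- uniqueness for the linear equation, forward -/
theorem zero_forward {f0 f1 f2 f3 f4 : ℝ → ℝ} {a b L : ℝ} (J : Jet f0 f1 f2 f3 f4)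
    (ha : 0 ≤ a) (ha1 : a ≤ 2) (hb : 0 ≤ b) (hb1 : b ≤ 1) {M : ℝ}
    (hode : ∀ t, L ≤ t → t ≤ M → f4 t = -a * f2 t - b * f0 t)
    (z0 : f0 L = 0) (z1 : f1 L = 0) (z2 : f2 L = 0) (z3 : f3 L = 0) (t : ℝ) (ht : L ≤ t)
    (htM : t ≤ M) : f0 t = 0 := by
  set E : ℝ → ℝ := fun t => f0 t ^ 2 + f1 t ^ 2 + f2 t ^ 2 + f3 t ^ 2 with hE
  set E' : ℝ → ℝ := fun t => 2 * f0 t * f1 t + 2 * f1 t * f2 t + 2 * f2 t * f3 t +
    2 * f3 t * f4 t with hE'
  have dE : ∀ t, HasDerivAt E (E' t) t := by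
    intro t
    have := ((((J.h0 t).pow 2).add ((J.h1 t).pow 2)).add ((J.h2 t).pow 2)).add ((J.h3 t).pow 2)
    refine this.congr_deriv ?_
    push_cast
    ring
  have hbd : ∀ t, L ≤ t → t ≤ M → E' t ≤ 8 * E t := by
    intro t h1 h2
    simp only [hE, hE', hode t h1 h2]
    nlinarith [sq_nonneg (f0 t - f1 t), sq_nonneg (f1 t - f2 t), sq_nonneg (f2 t - f3 t),
      mul_nonneg ha (sq_nonneg (f2 t + f3 t)), mul_nonneg hb (sq_nonneg (f0 t + f3 t)),
      mul_nonneg (sub_nonneg.2 ha1) (add_nonneg (sq_nonneg (f2 t)) (sq_nonneg (f3 t))),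
      mul_nonneg (sub_nonneg.2 hb1) (add_nonneg (sq_nonneg (f0 t)) (sq_nonneg (f3 t))),
      sq_nonneg (f0 t), sq_nonneg (f1 t), sq_nonneg (f2 t), sq_nonneg (f3 t)]
  have hanti : AntitoneOn (fun t => E t * Real.exp (-8 * t)) (Icc L t) := by
    have dG : ∀ s, HasDerivAt (fun t => E t * Real.exp (-8 * t))
        ((E' s - 8 * E s) * Real.exp (-8 * s)) s := by
      intro s
      have h1 := (dE s).mul (((hasDerivAt_id s).const_mul (-8)).exp)
      refine h1.congr_deriv ?_
      simp only [id]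
      ring
    refine antitoneOn_of_deriv_nonpos (convex_Icc _ _)
      (fun s _ => (dG s).continuousAt.continuousWithinAt)
      (fun s _ => (dG s).differentiableAt.differentiableWithinAt) (fun s hs => ?_)
    rw [interior_Icc] at hs
    rw [(dG s).deriv]
    have := hbd s hs.1.le (hs.2.le.trans htM)
    exact mul_nonpos_of_nonpos_of_nonneg (by linarith) (Real.exp_pos _).le
  have h : E t * Real.exp (-8 * t) ≤ E L * Real.exp (-8 * L) :=
    hanti ⟨le_rfl, ht⟩ ⟨ht, le_rfl⟩ ht
  have hEL : E L = 0 := by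
    simp only [hE, z0, z1, z2, z3]
    norm_num
  rw [hEL, zero_mul] at h
  have h2 : f0 t ^ 2 + f1 t ^ 2 + f2 t ^ 2 + f3 t ^ 2 ≤ 0 := by
    by_contra hc
    push Not at hc
    have : 0 < E t * Real.exp (-8 * t) := mul_pos hc (Real.exp_pos (-8 * t))
    linarith
  have : f0 t ^ 2 = 0 := le_antisymm (by nlinarith [sq_nonneg (f1 t), sq_nonneg (f2 t), sq_nonneg (f3 t)])
    (sq_nonneg _)
  exact pow_eq_zero_iff (two_ne_zero) |>.1 this

theorem Jet.reflect {f0 f1 f2 f3 f4 : ℝ → ℝ} (J : Jet f0 f1 f2 f3 f4) (m : ℝ) :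
    Jet (fun t => f0 (m - t)) (fun t => -f1 (m - t)) (fun t => f2 (m - t)) (fun t => -f3 (m - t))
      (fun t => f4 (m - t)) := by
  have hm : ∀ t, HasDerivAt (fun t => m - t) (-1) t := fun t => by
    simpa using (hasDerivAt_id t).const_sub m
  refine ⟨fun t => ?_, fun t => ?_, fun t => ?_, fun t => ?_⟩
  · have := (J.h0 (m - t)).comp t (hm t)
    exact this.congr_deriv (by ring)
  · have := ((J.h1 (m - t)).comp t (hm t)).neg
    exact this.congr_deriv (by ring)
  · have := (J.h2 (m - t)).comp t (hm t)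
    exact this.congr_deriv (by ring)
  · have := ((J.h3 (m - t)).comp t (hm t)).neg
    exact this.congr_deriv (by ring)

theorem Jet.shift {f0 f1 f2 f3 f4 : ℝ → ℝ} (J : Jet f0 f1 f2 f3 f4) (m : ℝ) :
    Jet (fun t => f0 (m + t)) (fun t => f1 (m + t)) (fun t => f2 (m + t)) (fun t => f3 (m + t))
      (fun t => f4 (m + t)) := by
  have hm : ∀ t, HasDerivAt (fun t => m + t) 1 t := fun t => by
    simpa using (hasDerivAt_id t).const_add m
  refine ⟨fun t => ?_, fun t => ?_, fun t => ?_, fun t => ?_⟩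
  · exact ((J.h0 (m + t)).comp t (hm t)).congr_deriv (by ring)
  · exact ((J.h1 (m + t)).comp t (hm t)).congr_deriv (by ring)
  · exact ((J.h2 (m + t)).comp t (hm t)).congr_deriv (by ring)
  · exact ((J.h3 (m + t)).comp t (hm t)).congr_deriv (by ring)

theorem Jet.lin {f0 f1 f2 f3 f4 g0 g1 g2 g3 g4 : ℝ → ℝ} (J : Jet f0 f1 f2 f3 f4)
    (K : Jet g0 g1 g2 g3 g4) (s : ℝ) :
    Jet (fun t => (f0 t + s * g0 t) / 2) (fun t => (f1 t + s * g1 t) / 2)
      (fun t => (f2 t + s * g2 t) / 2) (fun t => (f3 t + s * g3 t) / 2)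
      (fun t => (f4 t + s * g4 t) / 2) :=
  ⟨fun t => ((J.h0 t).add ((K.h0 t).const_mul s)).div_const 2,
    fun t => ((J.h1 t).add ((K.h1 t).const_mul s)).div_const 2,
    fun t => ((J.h2 t).add ((K.h2 t).const_mul s)).div_const 2,
    fun t => ((J.h3 t).add ((K.h3 t).const_mul s)).div_const 2⟩

theorem sin_jet (k : ℝ) : Jet (fun t => Real.sin (k * t)) (fun t => k * Real.cos (k * t))
    (fun t => -k ^ 2 * Real.sin (k * t)) (fun t => -k ^ 3 * Real.cos (k * t))
    (fun t => k ^ 4 * Real.sin (k * t)) := by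
  have hs : ∀ t, HasDerivAt (fun t => Real.sin (k * t)) (k * Real.cos (k * t)) t := fun t => by
    have := ((hasDerivAt_id t).const_mul k).sin
    exact this.congr_deriv (by simp only [id]; ring)
  have hc : ∀ t, HasDerivAt (fun t => Real.cos (k * t)) (-(k * Real.sin (k * t))) t := fun t => by
    have := ((hasDerivAt_id t).const_mul k).cos
    exact this.congr_deriv (by simp only [id]; ring)
  exact ⟨hs, fun t => ((hc t).const_mul k).congr_deriv (by ring),
    fun t => ((hs t).const_mul (-k ^ 2)).congr_deriv (by ring),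
    fun t => ((hc t).const_mul (-k ^ 3)).congr_deriv (by ring)⟩

lemma amp {x y S C : ℝ} (h1 : x * S + y * C = 0) (h2 : x * C - y * S = 0)
    (h3 : S ^ 2 + C ^ 2 = 1) : x ^ 2 + y ^ 2 = 0 := by
  have : (x ^ 2 + y ^ 2) * (S ^ 2 + C ^ 2) = 0 := by
    linear_combination (x * S + y * C) * h1 + (x * C - y * S) * h2
  rwa [h3, mul_one] at this

/-- The core: the odd part vanishes. `e` is the even part and `o` the odd part. -/
theorem core {e0 e1 e2 e3 e4 o0 o1 o2 o3 o4 : ℝ → ℝ} {c ξ α L : ℝ}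
    (Je : Jet e0 e1 e2 e3 e4) (Jo : Jet o0 o1 o2 o3 o4) (hα : 0 < α)
    (hc : 4 * α ^ 2 = 2 - c ^ 2) (hc0 : 0 < c) (hc2 : c ^ 2 < 2) (hξ : 0 ≤ ξ)
    (hξ4 : ξ < c ^ 4 / 4) (hL : 0 ≤ L)
    (odeE : ∀ t, 0 ≤ t → t ≤ L → e4 t = -(c ^ 2) * e2 t - ξ * e0 t + (1 - ξ))
    (odeO : ∀ t, 0 ≤ t → t ≤ L → o4 t = -(c ^ 2) * o2 t - ξ * o0 t)
    (odeO' : ∀ t, L ≤ t → o4 t = -(c ^ 2) * o2 t - o0 t)
    (ze1 : e1 0 = 0) (ze3 : e3 0 = 0) (zo0 : o0 0 = 0) (zo2 : o2 0 = 0)
    (heL : e0 L = -1) (hoL : o0 L = 0) (hpos : 0 < e1 L)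
    (e2L : e2 L = -2 * α * e1 L - e0 L) (e3L : e3 L = -2 * α * e2 L - e1 L)
    (o2L : o2 L = -2 * α * o1 L - o0 L) (o3L : o3 L = -2 * α * o2 L - o1 L)
    (t : ℝ) (ht : 0 ≤ t) : o0 t = 0 := by
  -- the wave number
  set D : ℝ := Real.sqrt (c ^ 4 - 4 * ξ) with hD
  have hD0 : 0 < D := Real.sqrt_pos.2 (by linarith)
  have hD2 : D ^ 2 = c ^ 4 - 4 * ξ := Real.sq_sqrt (by linarith)
  set k : ℝ := Real.sqrt ((c ^ 2 + D) / 2) with hk
  have hk0 : 0 < k := Real.sqrt_pos.2 (by positivity)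
  have hk2 : k ^ 2 = (c ^ 2 + D) / 2 := Real.sq_sqrt (by positivity)
  have hk4 : k ^ 4 = c ^ 2 * k ^ 2 - ξ := by
    have : k ^ 4 = (k ^ 2) ^ 2 := by ring
    rw [this, hk2]
    nlinarith [hD2]
  have S := sin_jet k
  set s0 : ℝ → ℝ := fun t => Real.sin (k * t) with hs0
  set s1 : ℝ → ℝ := fun t => k * Real.cos (k * t) with hs1
  set s2 : ℝ → ℝ := fun t => -k ^ 2 * Real.sin (k * t) with hs2
  set s3 : ℝ → ℝ := fun t => -k ^ 3 * Real.cos (k * t) with hs3
  set s4 : ℝ → ℝ := fun t => k ^ 4 * Real.sin (k * t) with hs4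
  have odeS : ∀ t, s4 t = -(c ^ 2) * s2 t - ξ * s0 t := by
    intro t
    simp only [hs4, hs2, hs0]
    rw [hk4]
    ring
  have zs0 : s0 0 = 0 := by simp [hs0]
  have zs2 : s2 0 = 0 := by simp [hs2]
  -- the first invariant
  have inv1 : o0 L * s3 L - o3 L * s0 L - (o1 L * s2 L - o2 L * s1 L) +
      c ^ 2 * (o0 L * s1 L - o1 L * s0 L) = 0 := by
    have := const_of' (F := fun t => o0 t * s3 t - o3 t * s0 t - (o1 t * s2 t - o2 t * s1 t) +
      c ^ 2 * (o0 t * s1 t - o1 t * s0 t))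
      (F' := fun t => (o1 t * s3 t + o0 t * s4 t) - (o4 t * s0 t + o3 t * s1 t) -
        ((o2 t * s2 t + o1 t * s3 t) - (o3 t * s1 t + o2 t * s2 t)) +
        c ^ 2 * ((o1 t * s1 t + o0 t * s2 t) - (o2 t * s0 t + o1 t * s1 t)))
      (a := 0) (b := L)
      (fun t => ((((Jo.h0 t).mul (S.h3 t)).sub ((Jo.h3 t).mul (S.h0 t))).sub
        (((Jo.h1 t).mul (S.h2 t)).sub ((Jo.h2 t).mul (S.h1 t)))).add
        ((((Jo.h0 t).mul (S.h1 t)).sub ((Jo.h1 t).mul (S.h0 t))).const_mul (c ^ 2)))
      (fun t h1 h2 => by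
        rw [odeS t, odeO t h1 h2]
        ring) hL
    rw [this, zo0, zs0, zo2, zs2]
    ring
  -- the second invariant
  have inv2 : e1 L * s3 L + s1 L * e3 L - e2 L * s2 L + c ^ 2 * (e1 L * s1 L) +
      ξ * (e0 L * s0 L) - (1 - ξ) * s0 L = 0 := by
    have := const_of' (F := fun t => e1 t * s3 t + s1 t * e3 t - e2 t * s2 t +
      c ^ 2 * (e1 t * s1 t) + ξ * (e0 t * s0 t) - (1 - ξ) * s0 t)
      (F' := fun t => (e2 t * s3 t + e1 t * s4 t) + (s2 t * e3 t + s1 t * e4 t) -
        (e3 t * s2 t + e2 t * s3 t) + c ^ 2 * (e2 t * s1 t + e1 t * s2 t) +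
        ξ * (e1 t * s0 t + e0 t * s1 t) - (1 - ξ) * s1 t)
      (a := 0) (b := L)
      (fun t => ((((((Je.h1 t).mul (S.h3 t)).add ((S.h1 t).mul (Je.h3 t))).sub
        ((Je.h2 t).mul (S.h2 t))).add (((Je.h1 t).mul (S.h1 t)).const_mul (c ^ 2))).add
        (((Je.h0 t).mul (S.h0 t)).const_mul ξ)).sub ((S.h0 t).const_mul (1 - ξ)))
      (fun t h1 h2 => by
        rw [odeS t, odeE t h1 h2]
        ring) hL
    rw [this, ze1, ze3, zs0, zs2]
    ring
  set b := o1 L with hb
  rw [hoL] at o2L inv1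
  rw [heL] at e2L inv2
  set u := e1 L with hu
  have r1 : b * (s2 L + 2 * α * s1 L + s0 L) = 0 := by
    rw [o3L, o2L] at inv1
    linear_combination (-1) * inv1 - b * s0 L * hc
  by_cases hb0 : b = 0
  · have z2 : o2 L = 0 := by rw [o2L, hb0]; ring
    have z3 : o3 L = 0 := by rw [o3L, z2, hb0]; ring
    have hc4 : c ^ 4 < 4 := by nlinarith [sq_nonneg c]
    rcases le_total t L with h | h
    · -- backwards, by reflection
      have R := Jo.reflect L
      have := zero_forward (L := 0) (M := L) R (a := c ^ 2) (b := ξ) (by positivity) hc2.le hξ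
        (by linarith) (fun s h1 h2 => by
          have := odeO (L - s) (by linarith) (by linarith)
          simpa using this) (by simpa using hoL) (by simpa using hb0) (by simpa using z2)
        (by simpa using z3) (L - t) (by linarith) (by linarith)
      simpa using this
    · exact zero_forward (L := L) (M := t) Jo (a := c ^ 2) (b := 1) (by positivity) hc2.le
        zero_le_one le_rfl (fun s h1 _ => by rw [odeO' s h1]; ring) hoL hb0 z2 z3 t h le_rfl
  · exfalso
    have r2 : s2 L + 2 * α * s1 L + s0 L = 0 := (mul_eq_zero.1 r1).resolve_left hb0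
    have r3 : u * (s3 L + 2 * α * s2 L + s1 L) = 0 := by
      rw [e3L, e2L] at inv2
      linear_combination inv2 + r2 - u * s1 L * hc
    have r4 : s3 L + 2 * α * s2 L + s1 L = 0 := (mul_eq_zero.1 r3).resolve_left hpos.ne'
    simp only [hs0, hs1, hs2, hs3] at r2 r4
    have A : (1 - k ^ 2) * Real.sin (k * L) + 2 * α * k * Real.cos (k * L) = 0 := by
      linear_combination r2
    have B : (1 - k ^ 2) * Real.cos (k * L) - 2 * α * k * Real.sin (k * L) = 0 := by
      have : k * ((1 - k ^ 2) * Real.cos (k * L) - 2 * α * k * Real.sin (k * L)) = 0 := by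
        linear_combination r4
      exact (mul_eq_zero.1 this).resolve_left hk0.ne'
    have hsc := Real.sin_sq_add_cos_sq (k * L)
    have fin : (1 - k ^ 2) ^ 2 + (2 * α * k) ^ 2 = 0 := amp A B hsc
    have hp : 0 < (2 * α * k) ^ 2 := pow_pos (mul_pos (mul_pos two_pos hα) hk0) 2
    have hq : 0 ≤ (1 - k ^ 2) ^ 2 := sq_nonneg _
    linarith

/-- a solution that never drops below `-1` does not exist -/
theorem no_high {f0 f1 f2 f3 f4 : ℝ → ℝ} {c α : ℝ} (J : Jet f0 f1 f2 f3 f4) (hα : 0 < α)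
    (hα1 : α < 1) (hc : 4 * α ^ 2 = 2 - c ^ 2) (hode : ∀ t, f4 t = -(c ^ 2) * f2 t - f0 t)
    (l0 : Tendsto f0 atTop (𝓝 0)) (l1 : Tendsto f1 atTop (𝓝 0))
    (m0 : Tendsto f0 atBot (𝓝 0)) (m1 : Tendsto f1 atBot (𝓝 0)) (t : ℝ) : f0 t = 0 := by
  have a1 : ∀ t, f2 t + 2 * α * f1 t + f0 t = 0 := fun t =>
    (decay (L := t) J hα hα1 hc (fun s _ => hode s) l0 l1 t le_rfl).1
  have R := J.reflect 0
  have tneg : Tendsto (fun t : ℝ => 0 - t) atTop atBot := by
    simpa using tendsto_neg_atTop_atBot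
  have a2 : ∀ t, f2 (0 - t) + 2 * α * (-f1 (0 - t)) + f0 (0 - t) = 0 := fun t =>
    (decay (L := t) R hα hα1 hc (fun s _ => hode _) (m0.comp tneg)
      (by simpa using (m1.comp tneg).neg) t le_rfl).1
  have h1 : ∀ t, f1 t = 0 := by
    intro t
    have e1 := a1 t
    have e2 := a2 (-t)
    rw [zero_sub, neg_neg] at e2
    have : 4 * α * f1 t = 0 := by linear_combination e1 - e2
    exact (mul_eq_zero.1 this).resolve_left (by positivity)
  have h2 : ∀ s, f0 s = f0 0 := by
    intro s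
    exact is_const_of_deriv_eq_zero (fun x => (J.h0 x).differentiableAt)
      (fun x => by rw [(J.h0 x).deriv, h1 x]) s 0
  have h3 : f0 0 = 0 := by
    refine tendsto_nhds_unique (f := fun _ : ℝ => f0 0) tendsto_const_nhds ?_ (l := atTop)
    exact l0.congr h2
  rw [h2 t, h3]

/-- the theorem for a wave whose drop is exactly one interval -/
theorem even_of_interval {c ξ : ℝ} (hc0 : 0 < c) (hc2 : c ^ 2 < 2) (hξ : 0 ≤ ξ)
    (hξ4 : ξ < c ^ 4 / 4) {z : ℝ → ℝ} {z1 z2 z3 z4 : ℝ → ℝ} (J : Jet z z1 z2 z3 z4)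
    (heq : ∀ t, z4 t + c ^ 2 * z2 t + max (z t + 1) 0 - ξ * max (-(z t + 1)) 0 - 1 = 0)
    (l0 : Tendsto z atTop (𝓝 0)) (l1 : Tendsto z1 atTop (𝓝 0))
    (m0 : Tendsto z atBot (𝓝 0)) (m1 : Tendsto z1 atBot (𝓝 0))
    {p q : ℝ} (hpq : p < q) (hset : {t | z t < -1} = Ioo p q) :
    ∀ t, z ((p + q) / 2 + t) = z ((p + q) / 2 - t) := by
  have hzc : Continuous z := continuous_iff_continuousAt.2 fun t => (J.h0 t).continuousAt
  set α : ℝ := Real.sqrt ((2 - c ^ 2) / 4) with hαdef
  have hα : 0 < α := Real.sqrt_pos.2 (by linarith)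
  have hα2 : α ^ 2 = (2 - c ^ 2) / 4 := Real.sq_sqrt (by linarith)
  have hc' : 4 * α ^ 2 = 2 - c ^ 2 := by rw [hα2]; ring
  have hα1 : α < 1 := by
    have : 0 < c ^ 2 := by positivity
    nlinarith
  have hlow : ∀ t, p < t → t < q → z t < -1 := fun t h1 h2 => by
    have : t ∈ {t | z t < -1} := by rw [hset]; exact ⟨h1, h2⟩
    exact this
  have hhigh : ∀ t, (t ≤ p ∨ q ≤ t) → -1 ≤ z t := fun t h => by
    by_contra hcon
    push Not at hcon
    have : t ∈ Ioo p q := by rw [← hset]; exact hcon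
    rcases h with h | h
    · exact absurd this.1 (not_lt.2 h)
    · exact absurd this.2 (not_lt.2 h)
  have hlow' : ∀ t ∈ Icc p q, z t ≤ -1 := by
    have hcl : closure (Ioo p q) = Icc p q := closure_Ioo hpq.ne
    intro t ht
    rw [← hcl] at ht
    exact closure_minimal (t := {t | z t ≤ -1}) (fun s hs => (hlow s hs.1 hs.2).le)
      (isClosed_le hzc continuous_const) ht
  have zp : z p = -1 := le_antisymm (hlow' p ⟨le_rfl, hpq.le⟩) (hhigh p (Or.inl le_rfl))
  have zq : z q = -1 := le_antisymm (hlow' q ⟨hpq.le, le_rfl⟩) (hhigh q (Or.inr le_rfl))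
  have ode1 : ∀ t, (t ≤ p ∨ q ≤ t) → z4 t = -(c ^ 2) * z2 t - z t := by
    intro t ht
    have h1 := hhigh t ht
    have h2 := heq t
    rw [max_eq_left (by linarith), max_eq_right (by linarith)] at h2
    linarith
  have ode2 : ∀ t, p ≤ t → t ≤ q → z4 t = -(c ^ 2) * z2 t - ξ * z t + (1 - ξ) := by
    intro t h1 h2
    have h3 := hlow' t ⟨h1, h2⟩
    have h4 := heq t
    rw [max_eq_right (by linarith), max_eq_left (by linarith)] at h4
    linarith
  -- signs of the derivative at the end points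
  have z1q : 0 < z1 q := by
    have hdec := decay (L := q) J hα hα1 hc' (fun t ht => ode1 t (Or.inr ht)) l0 l1 q le_rfl
    have hge : 0 ≤ z1 q := by
      have h1 : HasDerivWithinAt z (z1 q) (Ioi q) q := (J.h0 q).hasDerivWithinAt
      rw [hasDerivWithinAt_iff_tendsto_slope] at h1
      have e : Ioi q \ {q} = Ioi q := by simp
      rw [e] at h1
      refine ge_of_tendsto h1 ?_
      filter_upwards [self_mem_nhdsWithin] with s hs
      rw [slope_def_field]
      exact div_nonneg (by rw [zq]; linarith [hhigh s (Or.inr (le_of_lt hs))])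
        (sub_nonneg.2 (le_of_lt hs))
    rcases hge.lt_or_eq with h | h
    · exact h
    · exfalso
      have h2 : 0 < z2 q := by
        have := hdec.1
        rw [← h, zq] at this
        linarith
      have hd : deriv z = z1 := funext fun t => (J.h0 t).deriv
      have hmin : IsLocalMin z q := by
        refine isLocalMin_of_deriv_deriv_pos ?_ ?_ hzc.continuousAt
        · rw [hd, (J.h1 q).deriv]
          exact h2
        · rw [hd]
          exact h.symm
      have h3 : ∀ᶠ s in 𝓝[<] q, z q ≤ z s := nhdsWithin_le_nhds hmin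
      have h4 : ∀ᶠ s in 𝓝[<] q, s ∈ Ioo p q := Ioo_mem_nhdsLT hpq
      obtain ⟨s, hs1, hs2⟩ := (h3.and h4).exists
      have := hlow s hs2.1 hs2.2
      rw [zq] at hs1
      linarith
  have z1p : z1 p ≤ 0 := by
    have h1 : HasDerivWithinAt z (z1 p) (Iio p) p := (J.h0 p).hasDerivWithinAt
    rw [hasDerivWithinAt_iff_tendsto_slope] at h1
    have e : Iio p \ {p} = Iio p := by simp
    rw [e] at h1
    refine le_of_tendsto h1 ?_
    filter_upwards [self_mem_nhdsWithin] with s hs
    rw [slope_def_field]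
    exact div_nonpos_of_nonneg_of_nonpos (by rw [zp]; linarith [hhigh s (Or.inl (le_of_lt hs))])
      (sub_nonpos.2 (le_of_lt hs))
  set m : ℝ := (p + q) / 2 with hm
  set L : ℝ := (q - p) / 2 with hL
  have hL0 : 0 < L := by rw [hL]; linarith
  have hmL : m + L = q := by rw [hm, hL]; ring
  have hmL' : m - L = p := by rw [hm, hL]; ring
  have A := J.shift m
  have B := J.reflect m
  have Je := A.lin B 1
  have Jo := A.lin B (-1)
  have tm : Tendsto (fun t : ℝ => m + t) atTop atTop := tendsto_atTop_add_const_left _ m tendsto_id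
  have tm' : Tendsto (fun t : ℝ => m - t) atTop atBot := by
    have := tendsto_atBot_add_const_left atTop m tendsto_neg_atTop_atBot
    simpa [sub_eq_add_neg] using this
  have dA := decay (L := L) A hα hα1 hc' (fun t ht => ode1 _ (Or.inr (by linarith)))
    (l0.comp tm) (l1.comp tm) L le_rfl
  have dB := decay (L := L) B hα hα1 hc' (fun t ht => ode1 _ (Or.inl (by linarith)))
    (m0.comp tm') (by simpa using (m1.comp tm').neg) L le_rfl
  rw [hmL] at dA
  rw [hmL'] at dB
  have key : ∀ t, 0 ≤ t → (z (m + t) + -1 * z (m - t)) / 2 = 0 := by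
    intro t ht
    refine core Je Jo hα hc' hc0 hc2 hξ hξ4 hL0.le ?_ ?_ ?_ ?_ ?_ ?_ ?_ ?_ ?_ ?_ ?_ ?_ ?_ ?_ t ht
    · intro s h1 h2
      rw [ode2 (m + s) (by linarith) (by linarith), ode2 (m - s) (by linarith) (by linarith)]
      ring
    · intro s h1 h2
      rw [ode2 (m + s) (by linarith) (by linarith), ode2 (m - s) (by linarith) (by linarith)]
      ring
    · intro s h1
      rw [ode1 (m + s) (Or.inr (by linarith)), ode1 (m - s) (Or.inl (by linarith))]
      ring
    · simp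
    · simp
    · simp
    · simp
    · rw [hmL, hmL', zp, zq]
      norm_num
    · rw [hmL, hmL', zp, zq]
      norm_num
    · rw [hmL, hmL']
      linarith
    · simp only [hmL, hmL']
      linarith [dA.1, dB.1]
    · simp only [hmL, hmL']
      linarith [dA.2, dB.2]
    · simp only [hmL, hmL']
      linarith [dA.1, dB.1]
    · simp only [hmL, hmL']
      linarith [dA.2, dB.2]
  intro t
  rcases le_total 0 t with h | h
  · have := key t h
    linarith
  · have := key (-t) (by linarith)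
    rw [← sub_eq_add_neg, sub_neg_eq_add] at this
    linarith

/-- **One-troughed travelling waves are even.** -/
theorem result : ∀ c ξ : ℝ, 0 < c → c ^ 2 < 2 → 0 ≤ ξ → ξ < c ^ 4 / 4 →
    ∀ z : ℝ → ℝ, IsWave c ξ z → (OneTroughed z ∨ {t | z t = -1}.ncard = 2) →
      ∃ t₀ : ℝ, ∀ t, z (t₀ + t) = z (t₀ - t) := by
  intro c ξ hc0 hc2 hξ hξ4 z hz hone
  -- derivatives
  have hsm := hz.smooth
  have hd : ∀ n : ℕ, n < 4 → ∀ t, HasDerivAt (iteratedDeriv n z) (iteratedDeriv (n + 1) z t) t := by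
    intro n hn t
    rw [iteratedDeriv_succ]
    exact ((hsm.differentiable_iteratedDeriv n (by exact_mod_cast hn)) t).hasDerivAt
  have J : Jet z (iteratedDeriv 1 z) (iteratedDeriv 2 z) (iteratedDeriv 3 z)
      (iteratedDeriv 4 z) := by
    refine ⟨?_, hd 1 (by norm_num), hd 2 (by norm_num), hd 3 (by norm_num)⟩
    have := hd 0 (by norm_num)
    rwa [iteratedDeriv_zero] at this
  have e1 : iteratedDeriv 1 z = deriv z := iteratedDeriv_one
  have hlim := hz.lim
  have hlimd := hz.limd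
  rw [cocompact_eq_atBot_atTop, tendsto_sup] at hlim hlimd
  rw [← e1] at hlimd
  have main : ∀ p q : ℝ, p < q → {t | z t < -1} = Ioo p q →
      ∃ t₀ : ℝ, ∀ t, z (t₀ + t) = z (t₀ - t) := fun p q hpq h =>
    ⟨(p + q) / 2, even_of_interval hc0 hc2 hξ hξ4 J hz.eqn hlim.2 hlimd.2 hlim.1 hlimd.1 hpq h⟩
  rcases hone with ⟨p, q, hpq, h⟩ | h
  · exact main p q hpq h
  · have hzc : Continuous z := hsm.continuous
    have : ∃ p q : ℝ, p < q ∧ {t | z t = -1} = {p, q} := by
      obtain ⟨x, y, hxy, hs⟩ := Set.ncard_eq_two.1 h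
      rcases lt_or_gt_of_ne hxy with h1 | h1
      · exact ⟨x, y, h1, hs⟩
      · exact ⟨y, x, h1, by rw [hs, Set.pair_comm]⟩
    obtain ⟨p, q, hpq, hs⟩ := this
    have hval : ∀ t, z t = -1 → t = p ∨ t = q := fun t ht => by
      have : t ∈ {t | z t = -1} := ht
      rw [hs] at this
      simpa using this
    have hge : ∀ t, (t < p ∨ q < t) → -1 ≤ z t := by
      intro t ht
      by_contra hcon
      push Not at hcon
      rcases ht with ht | ht
      · obtain ⟨s, hs1, hs2⟩ := ((hlim.1.eventually (lt_mem_nhds (by norm_num : (-1:ℝ) < 0))).and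
          (eventually_lt_atBot t)).exists
        obtain ⟨r, hr1, hr2⟩ := intermediate_value_Icc' hs2.le hzc.continuousOn
          (show (-1 : ℝ) ∈ Icc (z t) (z s) from ⟨hcon.le, hs1.le⟩)
        have hrt : r ≤ t := hr1.2
        rcases hval r hr2 with h | h <;> linarith
      · obtain ⟨s, hs1, hs2⟩ := ((hlim.2.eventually (lt_mem_nhds (by norm_num : (-1:ℝ) < 0))).and
          (eventually_gt_atTop t)).exists
        obtain ⟨r, hr1, hr2⟩ := intermediate_value_Icc hs2.le hzc.continuousOn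
          (show (-1 : ℝ) ∈ Icc (z t) (z s) from ⟨hcon.le, hs1.le⟩)
        have hrt : t ≤ r := hr1.1
        rcases hval r hr2 with h | h <;> linarith
    have zp : z p = -1 := by
      have : p ∈ {t | z t = -1} := by rw [hs]; simp
      exact this
    have zq : z q = -1 := by
      have : q ∈ {t | z t = -1} := by rw [hs]; simp
      exact this
    by_cases hneg : ∃ s, s ∈ Ioo p q ∧ z s < -1
    · obtain ⟨s, hs1, hs2⟩ := hneg
      refine main p q hpq ?_
      ext t
      constructor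
      · intro ht
        have ht' : z t < -1 := ht
        constructor
        · by_contra hcon
          push Not at hcon
          rcases hcon.lt_or_eq with h1 | h1
          · linarith [hge t (Or.inl h1)]
          · rw [h1] at ht'; linarith
        · by_contra hcon
          push Not at hcon
          rcases hcon.lt_or_eq with h1 | h1
          · linarith [hge t (Or.inr h1)]
          · rw [← h1] at ht'; linarith
      · intro ht
        show z t < -1
        by_contra hcon
        push Not at hcon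
        -- the value -1 is taken between s and t
        have : ∃ r ∈ Ioo p q, z r = -1 := by
          rcases le_total s t with h1 | h1
          · obtain ⟨r, hr1, hr2⟩ := intermediate_value_Icc h1 hzc.continuousOn
              (show (-1 : ℝ) ∈ Icc (z s) (z t) from ⟨hs2.le, hcon⟩)
            exact ⟨r, ⟨hs1.1.trans_le hr1.1, hr1.2.trans_lt ht.2⟩, hr2⟩
          · obtain ⟨r, hr1, hr2⟩ := intermediate_value_Icc' h1 hzc.continuousOn
              (show (-1 : ℝ) ∈ Icc (z s) (z t) from ⟨hs2.le, hcon⟩)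
            exact ⟨r, ⟨ht.1.trans_le hr1.1, hr1.2.trans_lt hs1.2⟩, hr2⟩
        obtain ⟨r, hr, hr2⟩ := this
        rcases hval r hr2 with h | h
        · rw [h] at hr; exact lt_irrefl _ hr.1
        · rw [h] at hr; exact lt_irrefl _ hr.2
    · exfalso
      push Not at hneg
      have hall : ∀ t, -1 ≤ z t := by
        intro t
        rcases lt_trichotomy t p with h1 | h1 | h1
        · exact hge t (Or.inl h1)
        · rw [h1, zp]
        · rcases lt_trichotomy t q with h2 | h2 | h2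
          · exact hneg t ⟨h1, h2⟩
          · rw [h2, zq]
          · exact hge t (Or.inr h2)
      set α : ℝ := Real.sqrt ((2 - c ^ 2) / 4) with hαdef
      have hα : 0 < α := Real.sqrt_pos.2 (by linarith)
      have hα2 : α ^ 2 = (2 - c ^ 2) / 4 := Real.sq_sqrt (by linarith)
      have hc' : 4 * α ^ 2 = 2 - c ^ 2 := by rw [hα2]; ring
      have hα1 : α < 1 := by
        have : 0 < c ^ 2 := by positivity
        nlinarith
      have := no_high J hα hα1 hc' (fun t => by
        have h1 := hall t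
        have h2 := hz.eqn t
        rw [max_eq_left (by linarith), max_eq_right (by linarith)] at h2
        linarith) hlim.2 hlimd.2 hlim.1 hlimd.1 p
      rw [zp] at this
      norm_num at this

end Pool.Agent.Results.MP_55ecfc_an.OneTroughedEven
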